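import Pool.Agent.helper52.FS.SpecE
import Pool.Agent.helper69.FS.FIT

/-!
# Row fs:FIG (MP_07c750, project FS, spec Pool/Agent/helper52/FS/SpecE.lean)

The proof of row FIT (helper69), steps only for `t ∈ A`.
-/

open MeasureTheory Set

set_option autoImplicit false

namespace Pool.Agent.FS

theorem FIG_card_succ (A : Finset ℕ) (n : ℕ) (hn : n ∈ A) :
    (A.filter (fun t => t < n + 1)).card = (A.filter (fun t => t < n)).card + 1 := by
  have h1 : A.filter (fun t => t < n + 1) = insert n (A.filter (fun t => t < n)) := by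
    ext t
    simp only [Finset.mem_filter, Finset.mem_insert]
    constructor
    · rintro ⟨h1, h2⟩
      rcases Nat.lt_succ_iff_lt_or_eq.1 h2 with h3 | h3
      · exact Or.inr ⟨h1, h3⟩
      · exact Or.inl h3
    · rintro (h1 | ⟨h1, h2⟩)
      · subst h1
        exact ⟨hn, Nat.lt_succ_self _⟩
      · exact ⟨h1, Nat.lt_succ_of_lt h2⟩
  rw [h1, Finset.card_insert_of_notMem]
  simp

theorem FIG_filt_succ (A : Finset ℕ) (n : ℕ) (hn : n ∉ A) :
    A.filter (fun t => t < n + 1) = A.filter (fun t => t < n) := by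
  ext t
  simp only [Finset.mem_filter]
  constructor
  · rintro ⟨h1, h2⟩
    refine ⟨h1, ?_⟩
    rcases Nat.lt_succ_iff_lt_or_eq.1 h2 with h3 | h3
    · exact h3
    · subst h3
      exact absurd h1 hn
  · rintro ⟨h1, h2⟩
    exact ⟨h1, Nat.lt_succ_of_lt h2⟩

theorem FIG_proof (hLSM : LSM_stmt) (hMUL : MUL_stmt) (hCUT : CUT_stmt) (hPAR : PAR_stmt) : FIG_stmt := by
  intro c hc0 hc1
  obtain ⟨K, R1, hK, hR1, hL⟩ := hLSM (c / 4) 1 (by positivity) (by linarith) le_rfl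
  have hKpos : 0 < K := by linarith
  obtain ⟨B, hB, hC⟩ := hCUT c (1 / (20 * K)) hc0 hc1 (by positivity) (by
    rw [div_lt_one (by positivity)]
    linarith)
  set τ : ℝ := 1 / (20 * K) with hτ
  have hτ0 : 0 < τ := by positivity
  have hτ1 : τ ≤ 1 / 20 := by
    rw [hτ]
    apply one_div_le_one_div_of_le (by norm_num)
    linarith
  obtain ⟨H0, hH0⟩ := exists_nat_ge (32 * (B : ℝ) / c)
  set H : ℕ := H0 + 2 with hHdef
  have hH2 : 2 ≤ H := by omega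
  have hH : 32 * (B : ℝ) / c ≤ H := by
    rw [hHdef]
    push_cast
    linarith
  have hq0 : (1 : ℝ) / 2 ≤ 1 - 1 / (2 * K) := by
    have : 1 / (2 * K) ≤ 1 / 2 := by
      apply one_div_le_one_div_of_le (by norm_num)
      linarith
    linarith
  have h1τ : (0 : ℝ) < 1 - τ := by linarith
  have hKτ : 1 / (2 * K) = 10 * τ := by
    rw [hτ]
    field_simp
    norm_num
  refine ⟨(1 - 1 / (2 * K)) / (1 - τ) ^ 2, R1, H, ?_, ?_, hR1, hH2, ?_⟩
  · positivity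
  · rw [div_lt_one (by positivity), hKτ]
    nlinarith
  intro A Y J a hYm hYp hgap
  have key : ∀ n : ℕ, ∃ (S : Finset ℤ) (b : ℤ → ℂ) (D : ℕ), (∀ j ∈ S, ∃ i ∈ J, |j - i| ≤ (D : ℤ)) ∧ D * H ≤ 2 * B * H ^ n ∧
      (∀ v ∈ Y ∩ Icc (0 : ℝ) 1, (1 - τ) ^ (A.filter (fun t => t < n)).card * ‖tp J a v‖ ≤ ‖tp S b v‖) ∧
      ∫ v in Icc (0 : ℝ) 4, ‖tp S b v‖ ^ 2 ≤ (1 - 1 / (2 * K)) ^ (A.filter (fun t => t < n)).card * ∫ v in Icc (0 : ℝ) 4, ‖tp J a v‖ ^ 2 := by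
    intro n
    induction n with
    | zero =>
      refine ⟨J, a, 0, ?_, by simp, ?_, ?_⟩
      · intro j hj
        exact ⟨j, hj, by simp⟩
      · intro v _
        simp
      · simp
    | succ n ih =>
      obtain ⟨S, b, D, hSD, hD, hlow, hen⟩ := ih
      by_cases hn : n ∈ A
      · have hM1 : 1 ≤ H ^ n := Nat.one_le_pow _ _ (by omega)
        have hY := hYp n hn
        have hgap' : ∀ R : ℝ, ((H ^ n : ℕ) : ℝ) ≤ R → R ≤ R1 * ((H ^ n : ℕ) : ℝ) → ∀ ξ : ℝ, ∃ y ∈ Icc ξ (ξ + R), ∀ j ∈ J, c * R ≤ |Real.pi * j / 2 - y| := by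
          intro R hR hR' ξ
          push_cast at hR hR'
          exact hgap n hn R hR hR' ξ
        obtain ⟨S', b', D', h1, h2, h3, h4⟩ := FIT_step c τ K R1 B H hc0 hK hR1 hτ0 hτ1 hH2 hH hMUL hL n Y J S b D hSD hD hgap' (hC (H ^ n) Y hM1 hY)
        rw [FIG_card_succ A n hn]
        refine ⟨S', b', D', h1, h2, ?_, ?_⟩
        · intro v hv
          calc (1 - τ) ^ ((A.filter (fun t => t < n)).card + 1) * ‖tp J a v‖ = (1 - τ) * ((1 - τ) ^ (A.filter (fun t => t < n)).card * ‖tp J a v‖) := by rw [pow_succ']; ring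
            _ ≤ (1 - τ) * ‖tp S b v‖ := mul_le_mul_of_nonneg_left (hlow v hv) h1τ.le
            _ ≤ _ := h3 v hv
        · refine h4.trans ((mul_le_mul_of_nonneg_left hen (by linarith)).trans (le_of_eq ?_))
          rw [pow_succ']
          ring
      · rw [FIG_filt_succ A n hn]
        refine ⟨S, b, D, hSD, ?_, hlow, hen⟩
        refine hD.trans (Nat.mul_le_mul_left _ ?_)
        exact Nat.pow_le_pow_right (by omega) (Nat.le_succ n)
  obtain ⟨S, b, D, -, -, hlow, hen⟩ := key (A.sup id + 1)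
  have hfil : A.filter (fun t => t < A.sup id + 1) = A := by
    apply Finset.filter_true_of_mem
    intro t ht
    exact Nat.lt_succ_of_le (Finset.le_sup (f := id) ht)
  rw [hfil] at hlow hen
  set T : ℕ := A.card with hT
  have hF : Continuous (fun v => ‖tp S b v‖ ^ 2) := ((FIT_cont S b).norm).pow 2
  have hF0 : Continuous (fun v => ‖tp J a v‖ ^ 2) := ((FIT_cont J a).norm).pow 2
  have hI : IntegrableOn (fun v => ‖tp S b v‖ ^ 2) (Icc (0 : ℝ) 4) := hF.continuousOn.integrableOn_compact isCompact_Icc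
  have hI0 : IntegrableOn (fun v => ‖tp J a v‖ ^ 2) (Icc (0 : ℝ) 4) := hF0.continuousOn.integrableOn_compact isCompact_Icc
  have hsub : Y ∩ Icc (0 : ℝ) 1 ⊆ Icc (0 : ℝ) 4 := fun v hv => ⟨hv.2.1, by linarith [hv.2.2]⟩
  have h1 : ((1 - τ) ^ 2) ^ T * ∫ v in Y ∩ Icc (0 : ℝ) 1, ‖tp J a v‖ ^ 2 ≤ ∫ v in Y ∩ Icc (0 : ℝ) 1, ‖tp S b v‖ ^ 2 := by
    rw [← integral_const_mul]
    refine setIntegral_mono_on ((hI0.mono_set hsub).const_mul _) (hI.mono_set hsub) (hYm.inter measurableSet_Icc) ?_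
    intro v hv
    have h2 := hlow v hv
    have h3 : (((1 - τ) ^ 2) ^ T) * ‖tp J a v‖ ^ 2 = ((1 - τ) ^ T * ‖tp J a v‖) ^ 2 := by
      rw [mul_pow, ← pow_mul, ← pow_mul, mul_comm 2 T]
    rw [h3]
    exact pow_le_pow_left₀ (by positivity) h2 2
  have h2 : ∫ v in Y ∩ Icc (0 : ℝ) 1, ‖tp S b v‖ ^ 2 ≤ ∫ v in Icc (0 : ℝ) 4, ‖tp S b v‖ ^ 2 := by
    refine setIntegral_mono_set hI ?_ ?_
    · exact Filter.Eventually.of_forall (fun v => by positivity)
    · exact hsub.eventuallyLE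
  rw [hPAR J a] at hen
  have h3 : ((1 - τ) ^ 2) ^ T * ∫ v in Y ∩ Icc (0 : ℝ) 1, ‖tp J a v‖ ^ 2 ≤ (1 - 1 / (2 * K)) ^ T * (4 * ∑ j ∈ J, ‖a j‖ ^ 2) := by
    linarith
  have hpos : (0 : ℝ) < ((1 - τ) ^ 2) ^ T := by positivity
  rw [div_pow]
  have h4 : 4 * ((1 - 1 / (2 * K)) ^ T / ((1 - τ) ^ 2) ^ T) * ∑ j ∈ J, ‖a j‖ ^ 2 = ((1 - 1 / (2 * K)) ^ T * (4 * ∑ j ∈ J, ‖a j‖ ^ 2)) / ((1 - τ) ^ 2) ^ T := by
    ring
  rw [h4, le_div_iff₀ hpos]
  linarith

end Pool.Agent.FS
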