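import Pool.Agent.helper52.FS.SpecD

/-!
# Row fs:LFP (MP_07c750, project FS, spec Pool/Agent/helper52/FS/SpecD.lean)
-/

open scoped MatrixGroups ContDiff Topology UpperHalfPlane ComplexConjugate
open UpperHalfPlane MeasureTheory Filter Set

set_option autoImplicit false

namespace Pool.Agent.FS

open Pool.Agent.RS
open Pool.Agent.MS (bq BB BA SF pf)
open Pool.Agent.EN (XG MG mkX mkM fl pr)

theorem LFP_add (s t : ℝ) : lM (s + t) = lM s * lM t := by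
  apply Subtype.ext
  ext i j
  fin_cases i <;> fin_cases j <;> simp [lM, Matrix.mul_apply, Fin.sum_univ_two]

theorem LFP_cont (Γ : Subgroup SL(2, ℝ)) (Ψ Ψa Ψn Ψl : SL(2, ℝ) → ℝ) (h : SF Γ Ψ Ψa Ψn Ψl)
    (g : SL(2, ℝ)) : Continuous fun v : ℝ => Ψ (g * lM v) := by
  rw [continuous_iff_continuousAt]
  intro v
  have h1 := (h.dl (g * lM v)).continuousAt
  have h2 : ContinuousAt (fun w : ℝ => w - v) v := by fun_prop
  have h3 : ContinuousAt (fun t : ℝ => Ψ (g * lM v * lM t)) ((fun w : ℝ => w - v) v) := by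
    simpa using h1
  have h4 : ContinuousAt ((fun t : ℝ => Ψ (g * lM v * lM t)) ∘ (fun w : ℝ => w - v)) v :=
    ContinuousAt.comp (f := fun w : ℝ => w - v) h3 h2
  have h5 : (fun t : ℝ => Ψ (g * lM v * lM t)) ∘ (fun w : ℝ => w - v) = fun w : ℝ => Ψ (g * lM w) := by
    funext w
    simp only [Function.comp]
    rw [mul_assoc, ← LFP_add]
    congr 3
    ring
  rw [h5] at h4
  exact h4

/-- **Row LFP**. -/
theorem LFP_proof (hFUP : FUP_stmt) (hFQP : FQP_stmt) : LFP_stmt := by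
  intro Γ c R0 C3 κ0 Q hc0 hc1 hR0 hC3 hκ0 hκ1 hQ
  obtain ⟨c', R0', hc'0, hc'1, hR0', hF⟩ := hFQP Γ c R0 C3 κ0 hc0 hc1 hR0 hC3 hκ0 hκ1
  obtain ⟨N0, hN0, hU⟩ := hFUP (min c c') (max R0 R0') Q (lt_min hc0 hc'0) (lt_of_le_of_lt (min_le_left _ _) hc1) (le_trans hR0 (le_max_left _ _)) hQ
  obtain ⟨n0, hn0⟩ := exists_nat_ge (max N0 R0')
  refine ⟨n0, ?_⟩
  intro n Ψ Ψa Ψn Ψl Ψ' Ψa' Ψn' Ψl' εc hn hP hP' hε l g g' J a hl0 hl hJ
  have hexp : max N0 R0' ≤ Real.exp (n : ℝ) := by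
    have h1 : (n : ℝ) + 1 ≤ Real.exp (n : ℝ) := Real.add_one_le_exp _
    have h2 : (n0 : ℝ) ≤ (n : ℝ) := by exact_mod_cast hn
    linarith
  have hpos : 0 < Real.exp (n : ℝ) := Real.exp_pos _
  have hopen : IsOpen {v : ℝ | Ψ (g' * lM v) ≠ 0} := by
    have := LFP_cont Γ Ψ Ψa Ψn Ψl hP.sf g'
    exact isOpen_ne_fun this continuous_const
  have hmain := hU (Real.exp (n : ℝ)) {v : ℝ | Ψ (g' * lM v) ≠ 0} J a (le_trans (le_max_left _ _) hexp) hopen.measurableSet ?_ ?_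
  · rw [Set.inter_comm]
    exact hmain
  · intro r hr hr1 v
    have h1 : R0 * Real.exp (-(n : ℝ)) ≤ r := by
      refine le_trans ?_ hr
      rw [Real.exp_neg, ← div_eq_mul_inv]
      exact div_le_div_of_nonneg_right (le_max_left _ _) hpos.le
    have hr0 : 0 < r := lt_of_lt_of_le (mul_pos (lt_of_lt_of_le one_pos hR0) (Real.exp_pos _)) h1
    obtain ⟨x, hx, hx2⟩ := hP.fw g' r v h1 hr1
    refine ⟨x, hx, ?_⟩
    rw [Set.disjoint_left]
    intro w hw hw2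
    refine hw2 (hx2 w ?_)
    have h2 : min c c' * r ≤ c * r := mul_le_mul_of_nonneg_right (min_le_left _ _) hr0.le
    exact ⟨by linarith [hw.1], by linarith [hw.2]⟩
  · intro R hR hR2 ξ
    obtain ⟨y, hy, hy2⟩ := hF n Ψ' Ψa' Ψn' Ψl' εc l (εc / 100) g J (le_trans (le_max_right _ _) hexp) hP' hε hl0 hl le_rfl hJ R (le_trans (le_max_right _ _) hR) hR2 ξ
    refine ⟨y, hy, fun j hj => le_trans ?_ (hy2 j hj)⟩
    have hRpos : 0 ≤ R := le_trans (le_trans zero_le_one (le_trans hR0 (le_max_left _ _))) hR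
    exact mul_le_mul_of_nonneg_right (min_le_right _ _) hRpos

end Pool.Agent.FS
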